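import Pool.Agent.W662.SK.StmtsB

set_option autoImplicit false

open scoped InnerProductSpace ENNReal
open Filter Topology

namespace Pool.Agent.W33.SK

open Pool.Agent.W662.SK

noncomputable section

variable {Γ : Type} [Group Γ] {K : Type} [NormedAddCommGroup K] [InnerProductSpace ℂ K]
  [CompleteSpace K]

/-- `c` is the part of `T` in the group algebra -/
def CP (π : Γ →* (K ≃ₗᵢ[ℂ] K)) (T c : L2 Γ K →L[ℂ] L2 Γ K) : Prop :=
  c ∈ Cr Γ K ∧ T - sg π c ∈ Jd Γ K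

lemma sg_sub' (h0 : S_B0) (π : Γ →* (K ≃ₗᵢ[ℂ] K)) (a b : L2 Γ K →L[ℂ] L2 Γ K) :
    sg π (a - b) = sg π a - sg π b := by
  obtain ⟨-, -, hadd, hsm, -⟩ := h0 Γ K π
  rw [sub_eq_add_neg, hadd, ← neg_one_smul ℂ b, hsm, neg_one_smul, ← sub_eq_add_neg]

lemma CP_unique (h0 : S_B0) (h4 : S_B4) (π : Γ →* (K ≃ₗᵢ[ℂ] K)) (hs : HasShift π)
    {T c c' : L2 Γ K →L[ℂ] L2 Γ K} (h : CP π T c) (h' : CP π T c') : c = c' := by
  have hj : (T - sg π c') - (T - sg π c) ∈ Jd Γ K := Submodule.sub_mem _ h'.2 h.2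
  have hc : c' - c ∈ Cr Γ K := Submodule.sub_mem _ h'.1 h.1
  have h5 := h4 Γ K π hs _ hj _ hc
  rw [sg_sub' h0] at h5
  have e : T - sg π c' - (T - sg π c) + (sg π c' - sg π c) = 0 := by abel
  rw [e, norm_zero] at h5
  exact (sub_eq_zero.1 (norm_le_zero_iff.1 h5)).symm

lemma CP_mul (h0 : S_B0) (h1 : S_B1) (h2 : S_B2) (π : Γ →* (K ≃ₗᵢ[ℂ] K))
    {T T' c c' : L2 Γ K →L[ℂ] L2 Γ K} (h : CP π T c) (h' : CP π T' c') :
    CP π (T * T') (c * c') := by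
  obtain ⟨hJ, -, hC, -, -⟩ := h1 Γ K
  refine ⟨hC _ h.1 _ h'.1, ?_⟩
  have e : T * T' - sg π (c * c') = (T - sg π c) * (T' - sg π c') + (T - sg π c) * sg π c' +
      sg π c * (T' - sg π c') := by
    rw [(h0 Γ K π).1 c c']
    noncomm_ring
  rw [e]
  exact Submodule.add_mem _ (Submodule.add_mem _ (hJ _ h.2 _ h'.2)
    (h2 Γ K π _ h'.1 _ h.2).2) (h2 Γ K π _ h.1 _ h'.2).1

lemma CP_star (h0 : S_B0) (h1 : S_B1) (π : Γ →* (K ≃ₗᵢ[ℂ] K))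
    {T c : L2 Γ K →L[ℂ] L2 Γ K} (h : CP π T c) : CP π (star T) (star c) := by
  obtain ⟨-, hJ, -, hC, -⟩ := h1 Γ K
  refine ⟨hC _ h.1, ?_⟩
  have e : star T - sg π (star c) = star (T - sg π c) := by
    rw [(h0 Γ K π).2.1 c, star_sub]
  rw [e]
  exact hJ _ h.2

lemma CP_one (h0 : S_B0) (h1 : S_B1) (π : Γ →* (K ≃ₗᵢ[ℂ] K)) :
    CP π (1 : L2 Γ K →L[ℂ] L2 Γ K) 1 := by
  refine ⟨(h1 Γ K).2.2.2.2, ?_⟩
  rw [(h0 Γ K π).2.2.2.2.1, sub_self]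
  exact Submodule.zero_mem _

theorem b13 (h0 : S_B0) (h1 : S_B1) (h2 : S_B2) (h4 : S_B4) : S_B13 := by
  intro Γ K _ _ _ _ π π' hs A B hA hB θ
  have hyB : ∀ g : Γ, sg π' (cl (Lam K g)) ∈ B := by
    intro g
    have h : sg π' (cl (Lam K g)) ∈ (B : Set (L2 Γ K →L[ℂ] L2 Γ K)) := by
      rw [hB]
      exact ⟨0, Submodule.zero_mem _, _, Lam_mem g, (zero_add _).symm⟩
    exact h
  have hmulop : ∀ g h : Γ, sg π' (cl (Lam K g)) * sg π' (cl (Lam K h)) =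
      sg π' (cl (Lam K (g * h))) := by
    intro g h
    rw [← (h0 Γ K π').1, ← cl_mul, ← Lam_mul]
  have hstarop : ∀ g : Γ, star (sg π' (cl (Lam K g))) = sg π' (cl (Lam K g⁻¹)) := by
    intro g
    rw [← (h0 Γ K π').2.1, star_cl, Lam_inv]
  have honeop : sg π' (cl (Lam K (1 : Γ))) = 1 := by
    rw [Lam_one, cl_one, (h0 Γ K π').2.2.2.2.1]
  obtain ⟨y, hy⟩ : ∃ y : Γ → B, ∀ g, (y g : L2 Γ K →L[ℂ] L2 Γ K) = sg π' (cl (Lam K g)) :=
    ⟨fun g => ⟨_, hyB g⟩, fun _ => rfl⟩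
  have hymul : ∀ g h : Γ, y g * y h = y (g * h) := by
    intro g h
    apply Subtype.ext
    change (y g : L2 Γ K →L[ℂ] L2 Γ K) * (y h : L2 Γ K →L[ℂ] L2 Γ K) = _
    rw [hy, hy, hy, hmulop]
  have hystar : ∀ g : Γ, star (y g) = y g⁻¹ := by
    intro g
    apply Subtype.ext
    change star (y g : L2 Γ K →L[ℂ] L2 Γ K) = _
    rw [hy, hy, hstarop]
  have hyone : (y 1 : L2 Γ K →L[ℂ] L2 Γ K) = 1 := by rw [hy, honeop]
  -- the unit of `A`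
  have h1A : (1 : L2 Γ K →L[ℂ] L2 Γ K) ∈ A := by
    have h : (1 : L2 Γ K →L[ℂ] L2 Γ K) ∈ (A : Set (L2 Γ K →L[ℂ] L2 Γ K)) := by
      rw [hA]
      refine ⟨0, Submodule.zero_mem _, 1, (h1 Γ K).2.2.2.2, ?_⟩
      rw [(h0 Γ K π).2.2.2.2.1, zero_add]
    exact h
  have hx1 : θ.symm (y 1) = ⟨1, h1A⟩ := by
    have e1 : θ ⟨1, h1A⟩ * y 1 = θ ⟨1, h1A⟩ := by
      apply Subtype.ext
      change ((θ ⟨1, h1A⟩ : B) : L2 Γ K →L[ℂ] L2 Γ K) * (y 1 : L2 Γ K →L[ℂ] L2 Γ K) = _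
      rw [hyone, mul_one]
    have e2 : θ ⟨1, h1A⟩ * y 1 = y 1 := by
      have e3 : (⟨1, h1A⟩ : A) * θ.symm (y 1) = θ.symm (y 1) := Subtype.ext (one_mul _)
      have e4 := congrArg θ e3
      rw [map_mul, θ.apply_symm_apply] at e4
      exact e4
    have e4 : y 1 = θ ⟨1, h1A⟩ := e2.symm.trans e1
    rw [e4, θ.symm_apply_apply]
  -- the parts in the group algebra
  have hex : ∀ g : Γ, ∃ c, CP π ((θ.symm (y g) : A) : L2 Γ K →L[ℂ] L2 Γ K) c := by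
    intro g
    have h : ((θ.symm (y g) : A) : L2 Γ K →L[ℂ] L2 Γ K) ∈ (A : Set (L2 Γ K →L[ℂ] L2 Γ K)) :=
      (θ.symm (y g)).2
    rw [hA] at h
    obtain ⟨j, hj, c, hc, e⟩ := h
    refine ⟨c, hc, ?_⟩
    rw [e, add_sub_cancel_right]
    exact hj
  choose c hc using hex
  have hcmul : ∀ g h : Γ, c g * c h = c (g * h) := by
    intro g h
    refine CP_unique h0 h4 π hs (CP_mul h0 h1 h2 π (hc g) (hc h)) ?_
    have e : ((θ.symm (y g) : A) : L2 Γ K →L[ℂ] L2 Γ K) *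
        ((θ.symm (y h) : A) : L2 Γ K →L[ℂ] L2 Γ K) =
        ((θ.symm (y (g * h)) : A) : L2 Γ K →L[ℂ] L2 Γ K) := by
      rw [← hymul, map_mul]
      rfl
    rw [e]
    exact hc (g * h)
  have hcstar : ∀ g : Γ, star (c g) = c g⁻¹ := by
    intro g
    refine CP_unique h0 h4 π hs (CP_star h0 h1 π (hc g)) ?_
    have e : star ((θ.symm (y g) : A) : L2 Γ K →L[ℂ] L2 Γ K) =
        ((θ.symm (y g⁻¹) : A) : L2 Γ K →L[ℂ] L2 Γ K) := by
      have e5 : θ.symm (y g⁻¹) = star (θ.symm (y g)) := by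
        rw [← hystar]
        exact θ.symm.map_star' (y g)
      rw [e5]
      rfl
    rw [e]
    exact hc g⁻¹
  have hcone : c 1 = 1 := by
    refine CP_unique h0 h4 π hs (hc 1) ?_
    rw [hx1]
    exact CP_one h0 h1 π
  have hu : ∀ g : Γ, c g ∈ unitary (L2 Γ K →L[ℂ] L2 Γ K) := by
    intro g
    rw [Unitary.mem_iff]
    constructor
    · rw [hcstar, hcmul, inv_mul_cancel, hcone]
    · rw [hcstar, hcmul, mul_inv_cancel, hcone]
  let u : Γ →* unitary (L2 Γ K →L[ℂ] L2 Γ K) :=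
    { toFun := fun g => ⟨c g, hu g⟩
      map_one' := Subtype.ext hcone
      map_mul' := fun g h => Subtype.ext (hcmul g h).symm }
  refine ⟨(Unitary.linearIsometryEquiv (𝕜 := ℂ) (H := L2 Γ K)).toMonoidHom.comp u, fun g => ?_⟩
  have hcl : cl ((Unitary.linearIsometryEquiv (𝕜 := ℂ) (H := L2 Γ K)).toMonoidHom.comp u g) =
      c g := by
    ext z
    rfl
  rw [hcl]
  refine ⟨(hc g).1, θ.symm (y g), ?_, (hc g).2⟩
  rw [θ.apply_symm_apply, hy]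

end

end Pool.Agent.W33.SK
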